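import Pool.Agent.Super33.Example

/-!
Cohen-Macaulay relative cohomology does not imply that the Hochschild-Serre type spectral sequence
collapses at `E_2`.
-/

set_option autoImplicit false

namespace Pool.Agent.Results.MP_41152b_al.CMNotCollapse

open Pool.Agent.Super33

theorem result : ¬ ∀ (g0 g1 : Type) [LieRing g0] [LieAlgebra ℂ g0] [AddCommGroup g1]
    [Module ℂ g1] [LieRingModule g0 g1] [LieModule ℂ g0 g1] (S : LieSuperalgebra g0 g1),
    IsClassical S → ∀ (m n : ℕ) (b0 : Module.Basis (Fin m) ℂ g0) (b1 : Module.Basis (Fin n) ℂ g1)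
      (A : Type) [Ring A] [Algebra ℂ A] (D : CEAlgebra S b0 b1 A) (a : LieSubalgebra ℂ g0),
      D.IsCohenMacaulay a → D.Collapses a := fun h =>
  exD_not_collapses (h G0 G1 exS exS_classical 1 2 exb0 exb1 DA exD ⊥ exD_cm)

end Pool.Agent.Results.MP_41152b_al.CMNotCollapse
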